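import Pool.Agent.D0H31.GT.Fin

namespace Pool.Agent.Results.MP_446dfa_ag.ClassGrowth

open Pool.Agent.Helper392_GT Pool.Agent.D0H31.GT

/-- Let `L` be the free Lie algebra on `x, y` over a field of characteristic zero, graded by
weight, and `γ_j` the lower central series of `L' = [L, L]`. Let `𝔤 ⊆ L` be a linear subspace of
`𝔤𝔯𝔱₁` (antisymmetry, hexagon, pentagon), closed under the Ihara bracket, which contains for each
odd `n ≥ 3` an element of weight `n` congruent to `ad(x)^(n-1) y` modulo depth two. Then for every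
class `c ≥ 2` the weight `n` parts of `𝔤 ∩ γ_c(L')`, of `𝔤`, of `𝔤𝔯𝔱₁` and of `L` itself have
images in `L / γ_{c+1}(L')` whose dimensions are all of the exact order `n^(2c-1)`. -/
theorem result {k : Type*} [Field k] [CharZero k] (𝔤 : Submodule k (F2 k)) (hgrt : 𝔤 ≤ grtSub k)
    (hbracket : IharaClosed 𝔤) (hsoule : HasSoule 𝔤) (c : ℕ) (hc : 2 ≤ c) :
    ∃ A : ℝ, 0 < A ∧ ∃ N : ℕ, ∀ n ≥ N,
      A * (n : ℝ) ^ (2 * c - 1) ≤ dimC c (𝔤 ⊓ (gamma k (c - 1)).toSubmodule) n ∧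
      dimC c (𝔤 ⊓ (gamma k (c - 1)).toSubmodule) n ≤ dimC c 𝔤 n ∧
      dimC c 𝔤 n ≤ dimC c (grtSub k) n ∧
      dimC c (grtSub k) n ≤ dimC c (⊤ : Submodule k (F2 k)) n ∧
      dimC c (⊤ : Submodule k (F2 k)) n ≤ c * n ^ (2 * c - 1) :=
  class_growth 𝔤 hgrt hbracket hsoule c hc

end Pool.Agent.Results.MP_446dfa_ag.ClassGrowth
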