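import Pool.Agent.D0H34.GR.Two

/-!
# MP_446dfa_ag: any two non-commuting elements of the Grothendieck-Teichmüller group `GRT₁(ℚ)` generate a free group

The map `G_π → GT` is an isomorphism exactly if the prounipotent group `GRT₁` is free, and any two non-commuting
elements of a free prounipotent group generate a free group. We prove this last property unconditionally, for the
group `GRT₁(ℚ)` itself.

`GRT₁(ℚ)` is the group of the exponentials of the elements `F = ∑ F_m` of the completion of `𝔤𝔯𝔱₁` (`F_m ∈ 𝔤𝔯𝔱₁`
homogeneous of weight `m`). It acts faithfully on the completed enveloping algebra, which is contained in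
`ℚ⟨⟨x₀, x₁⟩⟩`: the element `F` acts by `s_F : g ↦ F g + D_F g` (where `D_F x₀ = 0`, `D_F x₁ = [x₁, F]`,
`[s_F, s_G] = s_{F,G}`, `s_F 1 = F`), and its exponential by `exp(s_F)`. The definition `Exp` describes `exp(s_F)` by
the automorphisms that it induces on the truncations `V n = ℚ⟨x₀, x₁⟩ / (words of length > n)`.

Outline. Let `F, G` be linearly independent. After a shear `G ↦ G - κ F` the lowest parts `F_a, G_b` are
linearly independent homogeneous elements of `𝔤𝔯𝔱₁`, and by Furusho's theorem (`FU/`, elementary proof) and the
freeness theorem for double shuffle elements, `P ↦ P(s_{F_a}, s_{G_b}) 1` is injective on `ℚ⟨x₀, x₁⟩`. If a word of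
the free group in `exp(s_F), exp(s_G)` is trivial, then the product `P_n` of exponentials truncated at degree `n`
satisfies `P_n(s_F, s_G) 1 ≡ 1` modulo words of length `> n`; comparing lowest parts, `P_n - 1` (sheared) has only
words of length `> n/max(a,b)` (`GR/Core.lean`). Under the specialization of the two letters to two matrices of
square zero with entries in `X ℚ[X]` this says that the word in the free group maps to `1` modulo any power of `X`, and
so to `1`, under a faithful representation of the free group in `GL₂(ℤ[X])` (`GR/Mag.lean`).
-/

set_option autoImplicit false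

namespace Pool.Agent.Results.MP_446dfa_ag.FreeGroups

open Pool.Agent.Helper392_GT Pool.Agent.D0H34.FU Pool.Agent.D0H34.GR

attribute [local instance 100] LieRing.ofAssociativeRing

/-- **Two elements of `GRT₁(ℚ)` commute or generate a free group.** Let `σ i m ∈ 𝔤𝔯𝔱₁` be homogeneous of weight `m`
(`i = 0, 1`, `m ≥ 0`), so that `σ i` is an element `F_i = ∑ σ i m` of the completion of `𝔤𝔯𝔱₁`. If `F_0` and `F_1` are
linearly independent, the exponentials of `F_0`, `F_1` generate a free group of rank two; otherwise they commute. -/
theorem result (σ : Fin 2 → ℕ → F2 ℚ) (h : ∀ i m, σ i m ∈ grtSub ℚ)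
    (hw : ∀ i m u, wordCoeff ℚ (σ i m) u ≠ 0 → u.toList.length = m) :
    (LinearIndependent ℚ σ → Function.Injective (FreeGroup.lift fun i => Exp fun m => bri (σ i m))) ∧
    (¬ LinearIndependent ℚ σ → Commute (Exp fun m => bri (σ 0 m)) (Exp fun m => bri (σ 1 m))) :=
  grt_cases σ h hw

end Pool.Agent.Results.MP_446dfa_ag.FreeGroups
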