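import Pool.Agent.D0H34.FU.Fin

/-!
# MP_446dfa_ag: any two elements of the Grothendieck-Teichmüller Lie algebra generate a free Lie algebra

The map `G_π → GT` is an isomorphism exactly if `𝔤𝔯𝔱₁` is the motivic Lie algebra, and then `𝔤𝔯𝔱₁` is free (with one
generator in each odd weight `≥ 3`), so that any two linearly independent elements of `𝔤𝔯𝔱₁` generate a free Lie
algebra of rank two. We prove this last property unconditionally, for `𝔤𝔯𝔱₁` itself: any two linearly independent
elements of `𝔤𝔯𝔱₁` (arbitrary solutions of the defining equations, homogeneous or not) generate, under the Ihara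
bracket, a free Lie algebra of rank two. So commuting elements are proportional, all finite-dimensional
subalgebras have dimension at most one, and two elements satisfy no relation at all.

Outline. Let `ψ` be a solution of the pentagon equation without linear terms. On the functions on the set `St` of
lists of exponents with two marks there are explicit operators `A_x, A_y, B_x, B_y, C` (`FU/Stm.lean`) that satisfy
the relations of the infinitesimal braid Lie algebra of the five punctured sphere (`FU/R.lean`). The pentagon equation
then gives `ψ(A_x,-D) + ψ(A_y,-B_y) = ψ(-B_x,-B_y) + ψ(A_y,-D) + ψ(A_x,-B_x)`, `D = B_x + B_y + C`; applied to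
the function of the empty state it computes `Q = ψ(A_x,-D) δ` on all states with two marks (`FU/E.lean`). The sums
over the quasi-shuffles of two lists intertwine `A_x, D` with `A ⊗ 1`, `B ⊗ 1 + 1 ⊗ B` (`FU/Lam.lean`), and so vanish on
`Q` (`FU/Stuf.lean`). This is an elementary proof that `ψ(x, -y)` satisfies the double shuffle relations (Furusho's
theorem). The lowest depth part of `ψ(x, -y)` is therefore in the linearized double shuffle space, and the
freeness theorem for such Lie polynomials (`D0H84/LS`, after `MP_ec2393_nt`) applies.
-/

set_option autoImplicit false

namespace Pool.Agent.Results.MP_446dfa_ag.FreePairs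

open Pool.Agent.Helper392_GT Pool.Agent.D0H34.FU

attribute [local instance 100] LieRing.ofAssociativeRing

/-- **Any two linearly independent elements of `𝔤𝔯𝔱₁` generate a free Lie algebra** of rank two under the Ihara
bracket (over `ℚ`; `GenFree ψ`: the elements `ψ i` are a basis of a free Lie algebra under the Ihara bracket). -/
theorem result (ψ : Fin 2 → F2 ℚ) (h : ∀ i, ψ i ∈ grtSub ℚ) (hli : LinearIndependent ℚ ψ) : GenFree ψ :=
  genFree_two ψ h hli

end Pool.Agent.Results.MP_446dfa_ag.FreePairs
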