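import Pool.Agent.D0H34.FU.Fin

/-!
# MP_446dfa_ag: free subalgebras of any rank of the Grothendieck-Teichmüller Lie algebra

Let `𝔤𝔯𝔱₁` be the space of all solutions of the defining equations (over `ℚ`) with the Ihara bracket and the depth
filtration. We prove that arbitrary elements of `𝔤𝔯𝔱₁` generate a free Lie algebra as soon as they are linearly
independent in a window `[r, R]`, `R < 2r`, of the depth filtration, and their weights are large compared with the
number of different weights: let `W` be a finite set of weights with `|W| R < w` for all `w ∈ W`, and let `ψ₁, …, ψₙ` be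
homogeneous elements of `𝔤𝔯𝔱₁` of weights in `W` and depth `≥ r`, no nonzero linear combination of which has depth
`> R`. Then the `ψᵢ` freely generate a free Lie algebra of rank `n`.

For example (one weight, `W = {w}`): lifts to `𝔤𝔯𝔱₁` of the elements of any basis of the weight `w` part of
`F^r 𝔤𝔯𝔱₁ / F^(2r) 𝔤𝔯𝔱₁` (`2r ≤ w`; the exceptional generators of every depth included) generate a free Lie
algebra. And (`r = R = 1`): if `W` is a set of odd weights, each larger than `|W|`, then any elements of `𝔤𝔯𝔱₁` in the
weights of `W` with nonzero depth one part generate a free Lie algebra; for the motivic elements this is Brown's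
theorem, but here the elements are arbitrary solutions.

The proof combines the elementary form of Furusho's theorem (see `FreePairs.lean`) with the window theorem for
Lie polynomials whose lowest depth parts satisfy the linearized double shuffle relations.
-/

set_option autoImplicit false

namespace Pool.Agent.Results.MP_446dfa_ag.FreeWindows

open Pool.Agent.Helper392_GT Pool.Agent.D0H34.FU

attribute [local instance 100] LieRing.ofAssociativeRing

/-- **Free subalgebras of `𝔤𝔯𝔱₁`** (over `ℚ`; `GenFree ψ`: the elements `ψ i` are a basis of a free Lie algebra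
under the Ihara bracket). Let the `ψ i ∈ 𝔤𝔯𝔱₁` be homogeneous of weight `wt i ∈ W` and of depth `≥ r ≥ 1`, and suppose
that no nonzero linear combination has depth `> R`. If `R < 2r` and `|W| R < w` for all `w ∈ W`, then the `ψ i` are a
basis of a free Lie algebra. -/
theorem result (n r R : ℕ) (W : Finset ℕ) (ψ : Fin n → F2 ℚ) (wt : Fin n → ℕ) (hr : 1 ≤ r) (hR : R < 2 * r)
    (hW : ∀ w ∈ W, W.card * R < w) (hwt : ∀ i, wt i ∈ W) (h : ∀ i, ψ i ∈ grtSub ℚ)
    (hψ : ∀ i u, wordCoeff ℚ (ψ i) u ≠ 0 → u.toList.length = wt i ∧ r ≤ u.toList.count 1)
    (hind : ∀ c : Fin n → ℚ, DepthGE ℚ (R + 1) (∑ i, c i • ψ i) → c = 0) : GenFree ψ :=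
  genFree_many n r R W ψ wt hr hR hW hwt h hψ hind

end Pool.Agent.Results.MP_446dfa_ag.FreeWindows
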